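import Pool.Agent.Y428.Cf.Par
import Pool.Agent.Y428.Cf.Low

/-!
# Conflict-free partial colourings with one colour less than the maximum degree

Every `r`-uniform hypergraph of maximum degree at most `D`, `r ≥ 3`, `D ≥ 3`, has a conflict-free
partial colouring with `D - 1` colours: some vertices are left uncoloured, and every edge has a
coloured vertex whose colour is used by no other vertex of the edge. Giving one new colour to the
uncoloured vertices one obtains a conflict-free colouring with `D` colours. For maximum degree three
two colours are best possible for partial colourings, for every uniformity.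

The case `D = 3` is the theorem `Pool.Agent.W209.CF.good3` of the starting files in the dual
hypergraph; there the background colour is never needed as the colour of the special vertex. For
larger `D` a maximal set of vertices meeting every edge at most once gets a colour of its own. The
hypergraphs for the second part have three or four edges.
-/

set_option autoImplicit false

namespace Pool.Agent.Results.MP_dcfb8f_co.PartialColourings

/-- The colours are `0, …, D - 1`, and `0` means uncoloured. First part: for all `r ≥ 3` and
`D ≥ 3`, every `r`-uniform hypergraph of maximum degree at most `D` has a partial colouring with the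
`D - 1` colours `1, …, D - 1` such that every edge has a coloured vertex whose colour is used by no
other vertex of the edge. Second part: for every `r ≥ 2` some `r`-uniform hypergraph of maximum
degree at most three has no such partial colouring with one colour. -/
theorem result :
    (∀ r D : ℕ, 3 ≤ r → 3 ≤ D →
      ∀ (V : Type) [Fintype V] [DecidableEq V] (E : Finset (Finset V)),
        (∀ e ∈ E, e.card = r) →
        (∀ v : V, (E.filter (fun e => v ∈ e)).card ≤ D) →
        ∃ c : V → Fin D, ∀ e ∈ E, ∃ v ∈ e, (c v : ℕ) ≠ 0 ∧ ∀ w ∈ e, c w = c v → w = v) ∧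
    (∀ r : ℕ, 2 ≤ r →
      ∃ (V : Type) (_ : Fintype V) (_ : DecidableEq V) (E : Finset (Finset V)),
        (∀ e ∈ E, e.card = r) ∧
        (∀ v : V, (E.filter (fun e => v ∈ e)).card ≤ 3) ∧
        ¬ ∃ c : V → Fin 2, ∀ e ∈ E, ∃ v ∈ e, (c v : ℕ) ≠ 0 ∧ ∀ w ∈ e, c w = c v → w = v) := by
  refine ⟨?_, ?_⟩
  · intro r D hr hD V _ _ E hU hdeg
    obtain ⟨k, rfl⟩ : ∃ k, D = k + 1 := ⟨D - 1, by omega⟩
    have hg := Pool.Agent.Y428.Cf.pgood r (k + 1) hr hD
    rw [Nat.add_sub_cancel] at hg
    obtain ⟨c, hc⟩ := hg V E hU hdeg
    have hinj : ∀ o o' : Option (Fin k), (o.elim 0 Fin.succ : Fin (k + 1)) = o'.elim 0 Fin.succ →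
        o = o' := by
      rintro (_ | a) (_ | b) h
      · rfl
      · exact absurd h.symm (Fin.succ_ne_zero b)
      · exact absurd h (Fin.succ_ne_zero a)
      · exact congrArg some (Fin.succ_injective k h)
    refine ⟨fun v => (c v).elim 0 Fin.succ, ?_⟩
    intro e he
    obtain ⟨v, hv, hn, hu⟩ := hc e he
    refine ⟨v, hv, ?_, ?_⟩
    · obtain ⟨a, ha⟩ := Option.ne_none_iff_exists'.1 hn
      show (((c v).elim 0 Fin.succ : Fin (k + 1)) : ℕ) ≠ 0
      rw [ha]
      simp
    · intro w hw hcw
      exact hu w hw (hinj _ _ hcw)
  · intro r hr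
    obtain ⟨V, i1, i2, E, hU, hdeg, hno⟩ := Pool.Agent.Y428.Cf.low r hr
    refine ⟨V, i1, i2, E, hU, hdeg, ?_⟩
    rintro ⟨c, hc⟩
    apply hno
    refine ⟨fun v => if (c v : ℕ) = 0 then none else some 0, ?_⟩
    intro e he
    obtain ⟨v, hv, hn, hu⟩ := hc e he
    refine ⟨v, hv, by simp [hn], ?_⟩
    intro w hw hcw
    apply hu w hw
    by_cases h0 : (c w : ℕ) = 0
    · simp [hn, h0] at hcw
    · apply Fin.ext
      have h1 := (c w).2
      have h2 := (c v).2
      omega

end Pool.Agent.Results.MP_dcfb8f_co.PartialColourings
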